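import Pool.Agent.W697.Room.Main

set_option autoImplicit false

open Set Filter Topology

namespace Pool.Agent.Results.MP_67b65f_an.DarkRooms

open Pool.Agent.H800R2

/-- In every dimension `n ≥ 2` there is a bounded domain `Ω` of `ℝⁿ` with `C^∞` boundary such that
for EVERY point `P` of `Ω` the fronts from `P` do not become dense; more precisely, for every `P` in
`Ω` there is a nonempty open set `D ⊆ Ω` which is met by no front from `P`. -/
theorem result : ∀ n : ℕ, 2 ≤ n → ∃ Ω : Set (Euc n), IsSmoothDomain Ω ∧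
    ∀ P ∈ Ω, (∃ D ⊆ Ω, IsOpen D ∧ D.Nonempty ∧ ∀ t, Disjoint (front Ω P t) D) ∧
      ¬ FrontsBecomeDense Ω P := by
  intro n hn
  set e : Euc n := EuclideanSpace.single ⟨0, by omega⟩ (1 : ℝ) with he
  set d : Euc n := EuclideanSpace.single ⟨1, by omega⟩ (1 : ℝ) with hd
  have he1 : ‖e‖ = 1 := by rw [he, EuclideanSpace.norm_single]; norm_num
  have hd1 : ‖d‖ = 1 := by rw [hd, EuclideanSpace.norm_single]; norm_num
  have hed : inner ℝ e d = 0 := by
    rw [he, hd, EuclideanSpace.inner_single_left]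
    simp
  refine ⟨Pool.Agent.W697.Room.room e, Pool.Agent.W697.Room.room_isSmoothDomain he1,
    fun P hP => ?_⟩
  obtain ⟨D, h1, h2, h3, h4⟩ := Pool.Agent.W697.Room.exists_dark he1 hd1 hed hP
  exact ⟨⟨D, h1, h2, h3, h4⟩, Pool.Agent.W697.Room.not_dense_of_dark h1 h2 h3 h4⟩

end Pool.Agent.Results.MP_67b65f_an.DarkRooms
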