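import Pool.Agent.W105.PR.Room

set_option autoImplicit false

open Set Filter Topology MeasureTheory

namespace Pool.Agent.Results.MP_67b65f_an.PenroseRoom

open Pool.Agent.H800R2

open scoped RealInnerProductSpace

/-- In every dimension `n ≥ 2` there are a bounded domain `Ω` of `ℝⁿ` with smooth boundary and
nonempty open subsets `A` and `B` of `Ω` (so `A` has positive measure) such that, for every point
`P` of `A`, no front `F_t(P)` contains a point of `B`; in particular, the fronts from `P` do not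
become dense. -/
theorem result : ∀ n : ℕ, 2 ≤ n → ∃ Ω : Set (Euc n), IsSmoothDomain Ω ∧
    ∃ A B : Set (Euc n), A ⊆ Ω ∧ B ⊆ Ω ∧ IsOpen A ∧ IsOpen B ∧ A.Nonempty ∧ B.Nonempty ∧
      0 < volume A ∧ ∀ P ∈ A, (∀ t : ℝ, Disjoint (front Ω P t) B) ∧ ¬ FrontsBecomeDense Ω P := by
  intro n hn
  classical
  set e : Euc n := EuclideanSpace.single (⟨0, by omega⟩ : Fin n) (1 : ℝ) with he'
  set f : Euc n := EuclideanSpace.single (⟨1, by omega⟩ : Fin n) (1 : ℝ) with hf'
  have he : ‖e‖ = 1 := by rw [he', PiLp.norm_single]; norm_num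
  have hf : ‖f‖ = 1 := by rw [hf', PiLp.norm_single]; norm_num
  have hef : ⟪e, f⟫ = (0 : ℝ) := by
    rw [he', hf', EuclideanSpace.inner_single_left]
    simp
  have hA := Pool.Agent.W105.PR.isOpen_pockets e
  have hA0 := Pool.Agent.W105.PR.pockets_nonempty he hf hef
  refine ⟨Pool.Agent.W105.PR.room e, Pool.Agent.W105.PR.room_smooth he hn,
    Pool.Agent.W105.PR.pockets e, Pool.Agent.W105.PR.cup e, fun p hp => hp.1, fun p hp => hp.1,
    hA, Pool.Agent.W105.PR.isOpen_cup e, hA0, Pool.Agent.W105.PR.cup_nonempty he,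
    hA.measure_pos volume hA0, fun P hP => ?_⟩
  have h := Pool.Agent.W105.PR.front_disjoint he hP
  exact ⟨h, Pool.Agent.W105.PR.not_dense_of_disjoint (Pool.Agent.W105.PR.isOpen_cup e)
    (Pool.Agent.W105.PR.cup_nonempty he) (fun p hp => hp.1) h⟩

end Pool.Agent.Results.MP_67b65f_an.PenroseRoom
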